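import Pool.Agent.MP_cce4c9_lc.H87.SpecQ

/-! Every point of the curve lies under a place. -/

set_option autoImplicit false

open Polynomial

namespace Pool.Agent.MP_cce4c9_lc.H26

open H87

lemma near_root {F : Type} [Field F] [IsAlgClosed F] (O : ValuationSubring F) {g : F[X]}
    (hg : g.Monic) {a : F} (h : O.valuation (g.eval a) < 1) :
    ∃ ξ, g.eval ξ = 0 ∧ O.valuation (ξ - a) < 1 := by
  by_contra hn
  refine absurd h (not_lt.2 ?_)
  rw [(IsAlgClosed.splits g).eq_prod_roots_of_monic hg, eval_multiset_prod, map_multiset_prod]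
  refine Multiset.one_le_prod_of_one_le fun x hx => ?_
  simp only [Multiset.map_map, Multiset.mem_map] at hx
  obtain ⟨ξ, hξ, rfl⟩ := hx
  refine not_lt.1 fun e => hn ⟨ξ, isRoot_of_mem_roots hξ, ?_⟩
  rw [Valuation.map_sub_swap]
  simpa using e

theorem pl (hC : H7.StmtCHEV) : StmtPL := by
  intro k _ _ d m f C hQ a ha
  let Ω := AlgebraicClosure (RatFunc k)
  let T : Ω := algebraMap (RatFunc k) Ω RatFunc.X
  have hT : ∀ p : k[X], aeval T p = algebraMap (RatFunc k) Ω (algebraMap k[X] (RatFunc k) p) :=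
    fun p => by rw [aeval_algebraMap_apply, RatFunc.aeval_X_left_eq_algebraMap]
  have hT0 : ∀ p : k[X], aeval T p = 0 → p = 0 := fun p hp => by
    rw [hT, map_eq_zero, map_eq_zero_iff _ (IsFractionRing.injective _ _)] at hp
    exact hp
  obtain ⟨P, hP⟩ := hC k Ω
    ((aeval T : k[X] →ₐ[k] Ω).toRingHom.prod (evalRingHom (f.eval (a 0)))).range
    (fun c => ⟨Polynomial.C c, by simp⟩) (by
      rintro c ⟨p, hp⟩
      have h1 : aeval T p = 0 := congrArg Prod.fst hp
      have h2 : p.eval (f.eval (a 0)) = c := congrArg Prod.snd hp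
      rw [← h2, hT0 p h1, eval_zero])
  obtain ⟨h1, h2⟩ := hP _ ⟨X - Polynomial.C (f.eval (a 0)), rfl⟩
  have h3 : P.O.valuation (aeval T (X - Polynomial.C (f.eval (a 0)))) < 1 :=
    (P.ker ⟨_, h1⟩).1 (h2.trans (by simp))
  have hm : (f.map (algebraMap k Ω) - Polynomial.C T).Monic := by
    refine (C.monic.map _).sub_of_left (degree_C_le.trans_lt ?_)
    rw [C.monic.degree_map, ← natDegree_pos_iff_degree_pos, C.deg]
    exact lt_of_lt_of_le two_pos C.hd
  have h4 : ∀ i, ∃ ξ : Ω, i < m → aeval ξ f = T ∧ P.O.valuation (ξ - algebraMap k Ω (a i)) < 1 := by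
    intro i
    by_cases hi : i < m
    · obtain ⟨ξ, e1, e2⟩ := near_root P.O hm (a := algebraMap k Ω (a i)) (by
        rw [eval_sub, eval_C, eval_map_algebraMap, aeval_algebraMap_apply, coe_aeval_eq_eval,
          ha i hi, Valuation.map_sub_swap]
        simpa using h3)
      rw [eval_sub, eval_C, eval_map_algebraMap, sub_eq_zero] at e1
      exact ⟨ξ, fun _ => ⟨e1, e2⟩⟩
    · exact ⟨0, fun h => absurd h hi⟩
  choose ξ hξ using h4
  obtain ⟨φ, hφ⟩ := C.lift Ω ξ fun i hi => (hξ i hi).1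
  obtain ⟨v, hv⟩ := hQ.pb Ω φ P.O P.mem
    ⟨(algebraMap k[X] (RatFunc k) (X - Polynomial.C (f.eval (a 0))))⁻¹, by
      rw [map_inv₀, ← hT, ← P.O.valuation_le_one_iff, map_inv₀, not_le]
      refine one_lt_inv_iff₀.2 ⟨zero_lt_iff.2 ?_, h3⟩
      rw [Valuation.ne_zero_iff]
      exact fun e => X_sub_C_ne_zero _ (hT0 _ e)⟩
  refine ⟨v, fun i hi => (hv _).2.2 ?_⟩
  rw [map_sub, hφ i hi, IsScalarTower.algebraMap_apply k (RatFunc k) C.Q, AlgHom.commutes,
    ← IsScalarTower.algebraMap_apply]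
  exact (hξ i hi).2

end Pool.Agent.MP_cce4c9_lc.H26
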